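import Pool.Agent.W684.SG.Final

/-!
# Consistently, no countably generated sigma-algebra contains all analytic sets

* There is a notion of forcing `P` (the countable support product of more than continuum many
  Silver forcings) all of whose conditions force the combinatorial sentence `PhiFor`
  (`PhiHolds P` is its literal translation into the forcing language).
* `PhiFor` implies that for each sequence of subsets of the unit interval there is an analytic
  set outside of the sigma-algebra generated by the sequence.

Idea: let `x` be the generic real of a column which is not used in the names under consideration,
and let `f(x)` be the real which codes the membership of `x` in the sets of the sequence. Both are
read continuously below a condition. If an analytic set `T` with a non-analytic complement is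
coded into the undecided points of the column, then the set of the ground model reals `t` such
that some condition below the one which codes `t` has a continuous reading of a witness for
`f(x)` being in the complement of the Borel set attached to `T` is analytic, and is the
complement of `T`.
-/

set_option autoImplicit false

namespace Pool.Agent.Results.MP_4137ca_lc.SilverProduct

open Pool.Agent.W684.SG MeasureTheory

/-- (A) There is a notion of forcing `P` all of whose conditions force the sentence `PhiFor`.
(B) If `PhiFor` holds then for each sequence `A` of subsets of the unit interval some analytic
subset of the unit interval is not in the sigma-algebra generated by the sets `A n`. -/
theorem result :
    (∃ (P : Type) (_ : Preorder P), Nonempty P ∧ ∀ p : P, p ∈ PhiHolds P) ∧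
    (PhiFor → ∀ A : ℕ → Set unitInterval, ∃ S : Set unitInterval, AnalyticSet S ∧
      ¬ MeasurableSet[MeasurableSpace.generateFrom (Set.range A)] S) :=
  ⟨exists_forcing, W347.SG.amb code_iff⟩

end Pool.Agent.Results.MP_4137ca_lc.SilverProduct
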